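import Pool.Agent.helper60.MW.SpecB

/-! ROW mw:WCX (helper92). -/

set_option autoImplicit false

namespace Pool.Agent.MW

open MeasureTheory Set Pool.Agent.helper17.Worm

theorem WCX : WCX_stmt := by
  intro X U hX hXU f hf
  obtain ⟨a, b, ha, hab⟩ := hX.2 (f '' Icc 0 1) ⟨f, hf.lipschitzOnWith, rfl⟩
  have ha0 : a ≠ 0 := by
    intro h
    rw [h, norm_zero] at ha
    exact zero_ne_one ha
  have h1 : Complex.exp (((Complex.arg a⁻¹ : ℝ) : ℂ) * Complex.I) = a⁻¹ := by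
    have h2 := Complex.norm_mul_exp_arg_mul_I a⁻¹
    rwa [norm_inv, ha, inv_one, Complex.ofReal_one, one_mul] at h2
  refine ⟨(Complex.arg a⁻¹, -(a⁻¹ * b)), fun t ht => ?_⟩
  obtain ⟨z, hz, hz2⟩ := hab ⟨t, ht, rfl⟩
  have h3 : mv (Complex.arg a⁻¹, -(a⁻¹ * b)) (f t) = z := by
    rw [← hz2]
    simp only [mv]
    have h4 : Complex.exp (Complex.I * ((Complex.arg a⁻¹ : ℝ) : ℂ)) = a⁻¹ := by rw [mul_comm, h1]
    rw [h4]
    field_simp
    ring
  rw [h3]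
  exact hXU hz

end Pool.Agent.MW
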